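import Mathlib

/-!
# LD-R, part 1: a bound of Mertens type for sets of primes (job 8847)
-/

set_option autoImplicit false

open Finset

namespace Pool.Agent.Y438.LD

/-- primes in a dyadic block -/
theorem block (j : ℕ) (hj : 1 ≤ j) :
    ∑ p ∈ (Ioc (2 ^ j) (2 ^ (j + 1))).filter Nat.Prime, (1 : ℝ) / p ≤ 4 / j := by
  set B := (Ioc (2 ^ j) (2 ^ (j + 1))).filter Nat.Prime with hB
  have h1 : (2 ^ j) ^ B.card ≤ 4 ^ (2 ^ (j + 1)) := by
    calc (2 ^ j) ^ B.card = ∏ _p ∈ B, 2 ^ j := by rw [prod_const]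
      _ ≤ ∏ p ∈ B, p := by
          refine Finset.prod_le_prod' (fun p hp => ?_)
          rw [hB, mem_filter, mem_Ioc] at hp
          exact hp.1.1.le
      _ ≤ primorial (2 ^ (j + 1)) := by
          unfold primorial
          refine Finset.prod_le_prod_of_subset_of_one_le' ?_ ?_
          · intro p hp
            rw [hB, mem_filter, mem_Ioc] at hp
            rw [mem_filter, mem_range]
            exact ⟨by omega, hp.2⟩
          · intro p hp _
            rw [mem_filter] at hp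
            exact hp.2.one_lt.le
      _ ≤ 4 ^ (2 ^ (j + 1)) := primorial_le_four_pow _
  have h2 : j * B.card ≤ 2 ^ (j + 2) := by
    have h3 : (4 : ℕ) ^ (2 ^ (j + 1)) = 2 ^ (2 * 2 ^ (j + 1)) := by
      rw [pow_mul]
      norm_num
    rw [← pow_mul, h3] at h1
    have h4 := (Nat.pow_le_pow_iff_right (by norm_num)).1 h1
    calc j * B.card ≤ 2 * 2 ^ (j + 1) := h4
      _ = 2 ^ (j + 2) := by ring
  have hjR : (0 : ℝ) < (j : ℝ) := by exact_mod_cast hj
  have h2R : (j : ℝ) * B.card ≤ 2 ^ (j + 2) := by exact_mod_cast h2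
  have hpos : (0 : ℝ) < 2 ^ j := by positivity
  calc ∑ p ∈ B, (1 : ℝ) / p ≤ ∑ _p ∈ B, (1 : ℝ) / 2 ^ j := by
        refine sum_le_sum (fun p hp => ?_)
        rw [hB, mem_filter, mem_Ioc] at hp
        refine one_div_le_one_div_of_le hpos ?_
        exact_mod_cast hp.1.1.le
    _ = B.card / 2 ^ j := by
        rw [sum_const, nsmul_eq_mul]
        ring
    _ ≤ 4 / j := by
        rw [div_le_div_iff₀ hpos hjR]
        calc (B.card : ℝ) * j = j * B.card := by ring
          _ ≤ 2 ^ (j + 2) := h2R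
          _ = 4 * 2 ^ j := by ring

/-- the sum of the inverse primes up to `2 ^ m` -/
theorem sum_primes (m : ℕ) (hm : 1 ≤ m) :
    ∑ p ∈ (Icc 1 (2 ^ m)).filter Nat.Prime, (1 : ℝ) / p ≤ 1 + 8 * Real.log m := by
  induction m, hm using Nat.le_induction with
  | base =>
    have h1 : (Icc 1 (2 ^ 1)).filter Nat.Prime = {2} := by decide
    rw [h1, sum_singleton]
    norm_num
  | succ m hm ih =>
    have hsub : (Icc 1 (2 ^ (m + 1))).filter Nat.Prime =
        (Icc 1 (2 ^ m)).filter Nat.Prime ∪ (Ioc (2 ^ m) (2 ^ (m + 1))).filter Nat.Prime := by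
      have hlt : 2 ^ m ≤ 2 ^ (m + 1) := Nat.pow_le_pow_right (by norm_num) (by omega)
      ext p
      simp only [mem_union, mem_filter, mem_Icc, mem_Ioc]
      constructor
      · rintro ⟨⟨h1, h2⟩, h3⟩
        by_cases h : p ≤ 2 ^ m
        · exact Or.inl ⟨⟨h1, h⟩, h3⟩
        · exact Or.inr ⟨⟨by omega, h2⟩, h3⟩
      · rintro (⟨⟨h1, h2⟩, h3⟩ | ⟨⟨h1, h2⟩, h3⟩)
        · exact ⟨⟨h1, by omega⟩, h3⟩
        · exact ⟨⟨by omega, h2⟩, h3⟩
    have hdisj : Disjoint ((Icc 1 (2 ^ m)).filter Nat.Prime)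
        ((Ioc (2 ^ m) (2 ^ (m + 1))).filter Nat.Prime) := by
      rw [disjoint_left]
      intro p h1 h2
      rw [mem_filter, mem_Icc] at h1
      rw [mem_filter, mem_Ioc] at h2
      omega
    rw [hsub, sum_union hdisj]
    have h1 := block m hm
    have hmR : (1 : ℝ) ≤ (m : ℝ) := by exact_mod_cast hm
    have hm0 : (0 : ℝ) < (m : ℝ) := by linarith
    have h2 : (0 : ℝ) < ((m : ℝ) + 1) / m := by positivity
    have h3 := Real.one_sub_inv_le_log_of_pos h2
    rw [Real.log_div (by positivity) hm0.ne', inv_div] at h3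
    have h4 : 4 / (m : ℝ) ≤ 8 * (1 - (m : ℝ) / (m + 1)) := by
      have h5 : 1 - (m : ℝ) / (m + 1) = 1 / (m + 1) := by
        field_simp
        ring
      rw [h5, mul_one_div, div_le_div_iff₀ hm0 (by positivity)]
      linarith
    push_cast
    linarith

/-- the product over a set of odd primes -/
theorem prod_bound (m : ℕ) (hm : 1 ≤ m) (U : Finset ℕ) (hU : ∀ p ∈ U, p.Prime ∧ 3 ≤ p)
    (hcard : U.card ≤ 2 ^ m) :
    ∏ p ∈ U, (1 + 1 / ((p : ℝ) - 2)) ≤ Real.exp 6 * (m : ℝ) ^ 24 := by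
  have h2m : (0 : ℝ) < 2 ^ m := by positivity
  have h1 : ∀ p ∈ U, 1 + 1 / ((p : ℝ) - 2) ≤ Real.exp (3 * (1 / (p : ℝ))) := by
    intro p hp
    have hp3 : (3 : ℝ) ≤ (p : ℝ) := by exact_mod_cast (hU p hp).2
    have h2 : 1 / ((p : ℝ) - 2) ≤ 3 * (1 / (p : ℝ)) := by
      rw [mul_one_div, div_le_div_iff₀ (by linarith) (by linarith)]
      linarith
    have h3 := Real.add_one_le_exp (3 * (1 / (p : ℝ)))
    linarith
  have h2 : ∑ p ∈ U, (1 : ℝ) / p ≤ 2 + 8 * Real.log m := by
    have hs : U = U.filter (fun p => p ≤ 2 ^ m) ∪ U.filter (fun p => ¬ p ≤ 2 ^ m) :=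
      (filter_union_filter_not_eq _ _).symm
    have hd : Disjoint (U.filter (fun p => p ≤ 2 ^ m)) (U.filter (fun p => ¬ p ≤ 2 ^ m)) :=
      disjoint_filter_filter_not _ _ _
    rw [hs, sum_union hd]
    have ha : ∑ p ∈ U.filter (fun p => p ≤ 2 ^ m), (1 : ℝ) / p ≤ 1 + 8 * Real.log m := by
      refine le_trans (sum_le_sum_of_subset_of_nonneg ?_ (fun p _ _ => by positivity))
        (sum_primes m hm)
      intro p hp
      rw [mem_filter] at hp
      rw [mem_filter, mem_Icc]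
      exact ⟨⟨(hU p hp.1).1.one_lt.le, hp.2⟩, (hU p hp.1).1⟩
    have hb : ∑ p ∈ U.filter (fun p => ¬ p ≤ 2 ^ m), (1 : ℝ) / p ≤ 1 := by
      calc ∑ p ∈ U.filter (fun p => ¬ p ≤ 2 ^ m), (1 : ℝ) / p
          ≤ ∑ _p ∈ U.filter (fun p => ¬ p ≤ 2 ^ m), (1 : ℝ) / 2 ^ m := by
            refine sum_le_sum (fun p hp => ?_)
            rw [mem_filter] at hp
            refine one_div_le_one_div_of_le h2m ?_
            have h3 : 2 ^ m ≤ p := by omega
            exact_mod_cast h3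
        _ = ((U.filter (fun p => ¬ p ≤ 2 ^ m)).card : ℝ) / 2 ^ m := by
            rw [sum_const, nsmul_eq_mul]
            ring
        _ ≤ 1 := by
            rw [div_le_one h2m]
            have h3 : (U.filter (fun p => ¬ p ≤ 2 ^ m)).card ≤ 2 ^ m :=
              (card_filter_le _ _).trans hcard
            exact_mod_cast h3
    linarith
  have hmR : (0 : ℝ) < (m : ℝ) := by exact_mod_cast hm
  calc ∏ p ∈ U, (1 + 1 / ((p : ℝ) - 2)) ≤ ∏ p ∈ U, Real.exp (3 * (1 / (p : ℝ))) := by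
        refine prod_le_prod (fun p hp => ?_) h1
        have hp3 : (3 : ℝ) ≤ (p : ℝ) := by exact_mod_cast (hU p hp).2
        have : (0 : ℝ) < (p : ℝ) - 2 := by linarith
        positivity
    _ = Real.exp (3 * ∑ p ∈ U, (1 : ℝ) / p) := by rw [← Real.exp_sum, mul_sum]
    _ ≤ Real.exp (6 + 24 * Real.log m) := by
        rw [Real.exp_le_exp]
        linarith
    _ = Real.exp 6 * (m : ℝ) ^ 24 := by
        rw [Real.exp_add]
        congr 1
        rw [show (24 : ℝ) * Real.log m = ((24 : ℕ) : ℝ) * Real.log m by norm_num,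
          ← Real.log_pow, Real.exp_log (by positivity)]

end Pool.Agent.Y438.LD
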