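import Mathlib

/-!
# LD-R, part 2: the number of the coincidences modulo `d` (job 8847)
-/

set_option autoImplicit false

open Finset

namespace Pool.Agent.Y438.LD

/-- the number of the exponents with a given power -/
theorem fib (b d : ℕ) (hd : 0 < d) (hcop : Nat.Coprime b d) (Y : ℕ) (c : ZMod d) :
    ∑ n : Fin Y, (if (b : ZMod d) ^ ((n : ℕ) + 1) = c then (1 : ℝ) else 0) ≤
      (Y : ℝ) / (orderOf (b : ZMod d) : ℝ) + 1 := by
  have : NeZero d := ⟨hd.ne'⟩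
  set u : (ZMod d)ˣ := ZMod.unitOfCoprime b hcop with hu
  have hub : (u : ZMod d) = (b : ZMod d) := ZMod.coe_unitOfCoprime b hcop
  set o := orderOf (b : ZMod d) with ho
  have hou : o = orderOf u := by rw [ho, ← hub, orderOf_units]
  have ho0 : 0 < o := by rw [hou]; exact orderOf_pos u
  rw [Fin.sum_univ_eq_sum_range (fun n : ℕ => if (b : ZMod d) ^ (n + 1) = c then (1 : ℝ) else 0) Y]
  rw [← Finset.sum_filter, sum_const, nsmul_eq_mul, mul_one]
  rcases Finset.eq_empty_or_nonempty ((range Y).filter (fun n => (b : ZMod d) ^ (n + 1) = c))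
    with he | he
  · rw [he, card_empty, Nat.cast_zero]
    positivity
  · obtain ⟨v, hv⟩ := he
    rw [mem_filter] at hv
    have hsub : (range Y).filter (fun n => (b : ZMod d) ^ (n + 1) = c) ⊆
        (range Y).filter (fun n => n ≡ v [MOD o]) := by
      intro n hn
      rw [mem_filter] at hn ⊢
      refine ⟨hn.1, ?_⟩
      have h1 : u ^ (n + 1) = u ^ (v + 1) := by
        apply Units.ext
        rw [Units.val_pow_eq_pow_val, Units.val_pow_eq_pow_val, hub, hn.2, hv.2]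
      rw [pow_eq_pow_iff_modEq, ← hou] at h1
      exact Nat.ModEq.add_right_cancel' 1 h1
    have h2 : ((range Y).filter (fun n => (b : ZMod d) ^ (n + 1) = c)).card ≤ Y / o + 1 := by
      refine (card_le_card hsub).trans ?_
      rw [← Nat.count_eq_card_filter_range, Nat.count_modEq_card _ ho0]
      split_ifs <;> omega
    have h3 : ((Y / o : ℕ) : ℝ) ≤ (Y : ℝ) / o := Nat.cast_div_le
    have h4 : (((range Y).filter (fun n => (b : ZMod d) ^ (n + 1) = c)).card : ℝ) ≤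
        ((Y / o : ℕ) : ℝ) + 1 := by exact_mod_cast h2
    linarith

/-- the number of the coincidences modulo `d` -/
noncomputable def NC (b d r Y : ℕ) : ℝ :=
  ∑ ν : Fin r → Fin Y, ∑ ν' : Fin r → Fin Y,
    (if ∑ j, (b : ZMod d) ^ ((ν j : ℕ) + 1) = ∑ j, (b : ZMod d) ^ ((ν' j : ℕ) + 1)
      then (1 : ℝ) else 0)

/-- the bound by the order -/
theorem NC_le_ord (b d : ℕ) (hd : 0 < d) (hcop : Nat.Coprime b d) (s Y : ℕ) (hY : 1 ≤ Y) :
    NC b d (s + 1) Y ≤ (1 / (orderOf (b : ZMod d) : ℝ) + 1 / Y) * ((Y : ℝ) ^ (s + 1)) ^ 2 := by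
  have hY0 : (0 : ℝ) < (Y : ℝ) := by exact_mod_cast hY
  unfold NC
  rw [Finset.sum_comm]
  have h1 : ∀ ν' : Fin (s + 1) → Fin Y, ∑ ν : Fin (s + 1) → Fin Y,
      (if ∑ j, (b : ZMod d) ^ ((ν j : ℕ) + 1) = ∑ j, (b : ZMod d) ^ ((ν' j : ℕ) + 1)
      then (1 : ℝ) else 0) ≤ (Y : ℝ) ^ s * ((Y : ℝ) / (orderOf (b : ZMod d) : ℝ) + 1) := by
    intro ν'
    rw [← (Fin.consEquiv (fun _ : Fin (s + 1) => Fin Y)).sum_comp, Fintype.sum_prod_type,
      Finset.sum_comm]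
    have h2 : ∀ μ : Fin s → Fin Y, ∑ n : Fin Y,
        (if ∑ j, (b : ZMod d) ^ ((((Fin.consEquiv (fun _ : Fin (s + 1) => Fin Y)) (n, μ)) j : ℕ) + 1)
          = ∑ j, (b : ZMod d) ^ ((ν' j : ℕ) + 1) then (1 : ℝ) else 0) ≤
        (Y : ℝ) / (orderOf (b : ZMod d) : ℝ) + 1 := by
      intro μ
      refine le_trans (le_of_eq ?_) (fib b d hd hcop Y
        (∑ j, (b : ZMod d) ^ ((ν' j : ℕ) + 1) - ∑ j, (b : ZMod d) ^ ((μ j : ℕ) + 1)))
      refine Finset.sum_congr rfl (fun n _ => ?_)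
      congr 1
      rw [Fin.sum_univ_succ, eq_sub_iff_add_eq]
      simp [Fin.consEquiv]
    calc _ ≤ ∑ μ : Fin s → Fin Y, ((Y : ℝ) / (orderOf (b : ZMod d) : ℝ) + 1) :=
          Finset.sum_le_sum (fun μ _ => h2 μ)
      _ = (Y : ℝ) ^ s * ((Y : ℝ) / (orderOf (b : ZMod d) : ℝ) + 1) := by
          rw [Finset.sum_const, Finset.card_univ, nsmul_eq_mul]
          simp
  calc _ ≤ ∑ ν' : Fin (s + 1) → Fin Y,
        (Y : ℝ) ^ s * ((Y : ℝ) / (orderOf (b : ZMod d) : ℝ) + 1) :=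
        Finset.sum_le_sum (fun ν' _ => h1 ν')
    _ = (1 / (orderOf (b : ZMod d) : ℝ) + 1 / Y) * ((Y : ℝ) ^ (s + 1)) ^ 2 := by
        rw [Finset.sum_const, Finset.card_univ, nsmul_eq_mul]
        simp only [Fintype.card_fun, Fintype.card_fin, Nat.cast_pow]
        have e : (Y : ℝ) / (orderOf (b : ZMod d) : ℝ) + 1 =
            Y * (1 / (orderOf (b : ZMod d) : ℝ) + 1 / Y) := by
          field_simp
        rw [e]
        ring

/-- characters turn sums into products -/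
theorem addchar_sum {A : Type*} [AddCommGroup A] (ψ : AddChar A ℂ) {ι : Type*} (s : Finset ι)
    (f : ι → A) : ψ (∑ i ∈ s, f i) = ∏ i ∈ s, ψ (f i) := by
  classical
  induction s using Finset.induction_on with
  | empty => simp
  | insert a s ha ih => rw [sum_insert ha, prod_insert ha, AddChar.map_add_eq_mul, ih]

/-- the Fourier bound -/
theorem NC_le_fourier (b d : ℕ) (hd : 0 < d) (hcop : Nat.Coprime b d)
    (hcop1 : IsUnit ((b : ZMod d) - 1)) : ∃ κ : ℝ, 0 ≤ κ ∧ κ < 1 ∧ ∃ Y0 : ℕ, ∀ Y : ℕ, Y0 ≤ Y →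
    ∀ r : ℕ, NC b d r Y ≤ (1 / (d : ℝ) + κ ^ (2 * r)) * ((Y : ℝ) ^ r) ^ 2 := by
  have : NeZero d := ⟨hd.ne'⟩
  have hbu : IsUnit (b : ZMod d) := by
    rw [← ZMod.coe_unitOfCoprime b hcop]
    exact Units.isUnit _
  set ψ : AddChar (ZMod d) ℂ := ZMod.stdAddChar with hψ
  have hprim : ψ.IsPrimitive := ZMod.isPrimitive_stdAddChar d
  have hnorm : ∀ x, ‖ψ x‖ = 1 := fun x => by
    rw [hψ, ZMod.stdAddChar_apply]
    exact Circle.norm_coe _
  -- the contraction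
  have hlt : ∀ x : ZMod d, x ≠ 0 → ‖ψ x + ψ (b * x)‖ < 2 := by
    intro x hx
    have hne : ψ x ≠ ψ (b * x) := by
      intro h
      have h1 := ZMod.injective_stdAddChar h
      have h2 : ((b : ZMod d) - 1) * x = 0 := by
        rw [sub_mul, one_mul, ← h1, sub_self]
      exact hx ((hcop1.mul_right_eq_zero).1 h2)
    have h1 := norm_add_lt_of_not_sameRay (x := ψ x) (y := ψ (b * x)) (by
      rw [sameRay_iff_of_norm_eq (by rw [hnorm, hnorm])]
      exact hne)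
    rw [hnorm, hnorm] at h1
    linarith
  obtain ⟨κ₀, hκ₀0, hκ₀1, hκ₀⟩ : ∃ κ₀ : ℝ, 0 ≤ κ₀ ∧ κ₀ < 1 ∧
      ∀ x : ZMod d, x ≠ 0 → ‖ψ x + ψ (b * x)‖ ≤ 2 * κ₀ := by
    by_cases hne : ((univ : Finset (ZMod d)).filter (fun x => x ≠ 0)).Nonempty
    · obtain ⟨x0, hx0, hmax⟩ := Finset.exists_max_image _ (fun x => ‖ψ x + ψ (b * x)‖) hne
      rw [mem_filter] at hx0
      refine ⟨‖ψ x0 + ψ (b * x0)‖ / 2, by positivity, ?_, fun x hx => ?_⟩
      · have := hlt x0 hx0.2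
        linarith
      · have := hmax x (mem_filter.2 ⟨mem_univ _, hx⟩)
        linarith
    · refine ⟨0, le_rfl, one_pos, fun x hx => ?_⟩
      exact absurd ⟨x, mem_filter.2 ⟨mem_univ _, hx⟩⟩ hne
  -- the exponential sums
  have hW : ∀ a : ZMod d, a ≠ 0 → ∀ Y : ℕ,
      ‖∑ n : Fin Y, ψ (a * (b : ZMod d) ^ ((n : ℕ) + 1))‖ ≤ κ₀ * Y + 1 := by
    intro a ha Y
    rw [Fin.sum_univ_eq_sum_range (fun n : ℕ => ψ (a * (b : ZMod d) ^ (n + 1))) Y]
    set f : ℕ → ℂ := fun n => ψ (a * (b : ZMod d) ^ (n + 1)) with hf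
    have h1 : ∑ n ∈ range Y, (f n + f (n + 1)) = 2 * ∑ n ∈ range Y, f n + (f Y - f 0) := by
      rw [sum_add_distrib, ← Finset.sum_range_sub f Y, sum_sub_distrib]
      ring
    have h2 : ‖∑ n ∈ range Y, (f n + f (n + 1))‖ ≤ 2 * κ₀ * Y := by
      refine (norm_sum_le _ _).trans ?_
      calc ∑ n ∈ range Y, ‖f n + f (n + 1)‖ ≤ ∑ _n ∈ range Y, 2 * κ₀ := by
            refine sum_le_sum (fun n _ => ?_)
            have hx : a * (b : ZMod d) ^ (n + 1) ≠ 0 := by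
              intro h
              exact ha (((hbu.pow (n + 1)).mul_left_eq_zero).1 h)
            have h3 := hκ₀ _ hx
            have h4 : (b : ZMod d) * (a * (b : ZMod d) ^ (n + 1)) =
                a * (b : ZMod d) ^ (n + 1 + 1) := by ring
            rw [h4] at h3
            exact h3
        _ = 2 * κ₀ * Y := by
            rw [sum_const, card_range, nsmul_eq_mul]
            ring
    have h3 : ‖f Y - f 0‖ ≤ 2 := by
      refine (norm_sub_le _ _).trans ?_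
      rw [hf]
      simp only [hnorm]
      norm_num
    have h4 : ‖2 * ∑ n ∈ range Y, f n‖ ≤ 2 * κ₀ * Y + 2 := by
      have h5 : 2 * ∑ n ∈ range Y, f n = ∑ n ∈ range Y, (f n + f (n + 1)) - (f Y - f 0) := by
        rw [h1]
        ring
      rw [h5]
      exact (norm_sub_le _ _).trans (add_le_add h2 h3)
    rw [norm_mul, Complex.norm_ofNat] at h4
    linarith
  -- the identity
  have hid : ∀ Y r : ℕ, (d : ℝ) * NC b d r Y =
      ∑ a : ZMod d, (‖∑ n : Fin Y, ψ (a * (b : ZMod d) ^ ((n : ℕ) + 1))‖ ^ r) ^ 2 := by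
    intro Y r
    have h1 : ((d : ℝ) * NC b d r Y : ℂ) =
        ∑ a : ZMod d, (((‖∑ n : Fin Y, ψ (a * (b : ZMod d) ^ ((n : ℕ) + 1))‖ ^ r) ^ 2 : ℝ) : ℂ) := by
      have h2 : ∀ a : ZMod d,
          (((‖∑ n : Fin Y, ψ (a * (b : ZMod d) ^ ((n : ℕ) + 1))‖ ^ r) ^ 2 : ℝ) : ℂ) =
          ∑ ν : Fin r → Fin Y, ∑ ν' : Fin r → Fin Y,
            ψ (a * (∑ j, (b : ZMod d) ^ ((ν j : ℕ) + 1) - ∑ j, (b : ZMod d) ^ ((ν' j : ℕ) + 1))) := by
        intro a
        have h3 : (∑ n : Fin Y, ψ (a * (b : ZMod d) ^ ((n : ℕ) + 1))) ^ r =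
            ∑ ν : Fin r → Fin Y, ψ (a * ∑ j, (b : ZMod d) ^ ((ν j : ℕ) + 1)) := by
          rw [Fintype.sum_pow]
          refine Finset.sum_congr rfl (fun ν _ => ?_)
          rw [Finset.mul_sum, addchar_sum]
        rw [← norm_pow, h3]
        push_cast
        rw [← Complex.mul_conj', map_sum, Finset.sum_mul_sum]
        refine Finset.sum_congr rfl (fun ν _ => Finset.sum_congr rfl (fun ν' _ => ?_))
        rw [← AddChar.map_neg_eq_conj, ← AddChar.map_add_eq_mul]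
        congr 1
        ring
      rw [Finset.sum_congr rfl (fun a _ => h2 a), Finset.sum_comm]
      unfold NC
      push_cast
      rw [Finset.mul_sum]
      refine Finset.sum_congr rfl (fun ν _ => ?_)
      rw [Finset.sum_comm, Finset.mul_sum]
      refine Finset.sum_congr rfl (fun ν' _ => ?_)
      rw [AddChar.sum_mulShift _ hprim, ZMod.card]
      by_cases h : ∑ j, (b : ZMod d) ^ ((ν j : ℕ) + 1) = ∑ j, (b : ZMod d) ^ ((ν' j : ℕ) + 1)
      · rw [if_pos h, if_pos (sub_eq_zero.2 h)]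
        simp
      · rw [if_neg h, if_neg (fun h' => h (sub_eq_zero.1 h'))]
        simp
    exact_mod_cast h1
  set κ : ℝ := (1 + κ₀) / 2 with hκ
  have hκ1 : κ < 1 := by rw [hκ]; linarith
  have hκ0 : 0 ≤ κ := by rw [hκ]; linarith
  obtain ⟨Y0, hY0⟩ := exists_nat_ge (1 / (κ - κ₀))
  refine ⟨κ, hκ0, hκ1, Y0, fun Y hY r => ?_⟩
  have hgap : 0 < κ - κ₀ := by rw [hκ]; linarith
  have hYR : (Y0 : ℝ) ≤ (Y : ℝ) := by exact_mod_cast hY
  have hYbig : κ₀ * Y + 1 ≤ κ * Y := by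
    have h1 := hY0.trans hYR
    rw [div_le_iff₀ hgap] at h1
    linarith
  have hd0 : (0 : ℝ) < (d : ℝ) := by exact_mod_cast hd
  have hYn : (0 : ℝ) ≤ (Y : ℝ) := Nat.cast_nonneg _
  have h1 : (d : ℝ) * NC b d r Y ≤ ((Y : ℝ) ^ r) ^ 2 + d * (κ ^ (2 * r) * ((Y : ℝ) ^ r) ^ 2) := by
    rw [hid Y r]
    have h2 : ∀ a : ZMod d,
        (‖∑ n : Fin Y, ψ (a * (b : ZMod d) ^ ((n : ℕ) + 1))‖ ^ r) ^ 2 ≤
        (if a = 0 then ((Y : ℝ) ^ r) ^ 2 else 0) + κ ^ (2 * r) * ((Y : ℝ) ^ r) ^ 2 := by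
      intro a
      by_cases ha : a = 0
      · subst ha
        rw [if_pos rfl]
        have h3 : ‖∑ n : Fin Y, ψ (0 * (b : ZMod d) ^ ((n : ℕ) + 1))‖ = Y := by
          simp
        rw [h3]
        have : 0 ≤ κ ^ (2 * r) * ((Y : ℝ) ^ r) ^ 2 := by positivity
        linarith
      · rw [if_neg ha, zero_add]
        have h3 : ‖∑ n : Fin Y, ψ (a * (b : ZMod d) ^ ((n : ℕ) + 1))‖ ≤ κ * Y :=
          (hW a ha Y).trans hYbig
        calc (‖∑ n : Fin Y, ψ (a * (b : ZMod d) ^ ((n : ℕ) + 1))‖ ^ r) ^ 2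
            ≤ ((κ * Y) ^ r) ^ 2 :=
              pow_le_pow_left₀ (by positivity) (pow_le_pow_left₀ (norm_nonneg _) h3 r) 2
          _ = κ ^ (2 * r) * ((Y : ℝ) ^ r) ^ 2 := by
              rw [mul_pow, mul_pow, ← pow_mul κ, mul_comm r 2]
    calc _ ≤ ∑ a : ZMod d, ((if a = 0 then ((Y : ℝ) ^ r) ^ 2 else 0) +
          κ ^ (2 * r) * ((Y : ℝ) ^ r) ^ 2) := Finset.sum_le_sum (fun a _ => h2 a)
      _ = ((Y : ℝ) ^ r) ^ 2 + d * (κ ^ (2 * r) * ((Y : ℝ) ^ r) ^ 2) := by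
          rw [Finset.sum_add_distrib, Finset.sum_ite_eq' , if_pos (mem_univ _), Finset.sum_const,
            Finset.card_univ, ZMod.card, nsmul_eq_mul]
  have h5 : (1 / (d : ℝ) + κ ^ (2 * r)) * ((Y : ℝ) ^ r) ^ 2 =
      (((Y : ℝ) ^ r) ^ 2 + d * (κ ^ (2 * r) * ((Y : ℝ) ^ r) ^ 2)) / d := by
    field_simp
  rw [h5, le_div_iff₀ hd0]
  linarith

end Pool.Agent.Y438.LD
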