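import Pool.Agent.Y438.LD.A1
import Pool.Agent.Y438.LD.A2

/-!
# LD-R, part 3: orders and the tail of Romanoff's sum (job 8847)
-/

set_option autoImplicit false

open Finset

namespace Pool.Agent.Y438.LD

/-- the order of `b` modulo the product of a set of primes -/
noncomputable def oT (b : ℕ) (T : Finset ℕ) : ℕ := orderOf (b : ZMod (∏ p ∈ T, p))

/-- the weight of a set of primes -/
noncomputable def xT (T : Finset ℕ) : ℝ := ∏ p ∈ T, 1 / ((p : ℝ) - 2)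

/-- the primes not dividing `b (b - 1)` -/
def Gd (b p : ℕ) : Prop := p.Prime ∧ ¬ p ∣ b * (b - 1)

theorem Gd.three_le {b p : ℕ} (h : Gd b p) : 3 ≤ p := by
  have h2 := h.1.two_le
  rcases Nat.lt_or_ge 2 p with h3 | h3
  · exact h3
  · exfalso
    have hp : p = 2 := by omega
    refine h.2 ?_
    rw [hp]
    rcases Nat.even_or_odd b with hb | hb
    · exact Dvd.dvd.mul_right hb.two_dvd _
    · have : Even (b - 1) := Nat.Odd.sub_odd hb odd_one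
      exact Dvd.dvd.mul_left this.two_dvd _

theorem Gd.one_le {b p : ℕ} (h : Gd b p) : (1 : ℝ) ≤ (p : ℝ) - 2 := by
  have h3 : (3 : ℝ) ≤ (p : ℝ) := by exact_mod_cast h.three_le
  linarith

theorem xT_nonneg (b : ℕ) (T : Finset ℕ) (hT : ∀ p ∈ T, Gd b p) : 0 ≤ xT T := by
  unfold xT
  refine prod_nonneg (fun p hp => ?_)
  have := (hT p hp).one_le
  positivity

theorem prod_pos' (b : ℕ) (T : Finset ℕ) (hT : ∀ p ∈ T, Gd b p) : 0 < ∏ p ∈ T, p :=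
  prod_pos (fun p hp => (hT p hp).1.pos)

theorem cop1 (b : ℕ) (T : Finset ℕ) (hT : ∀ p ∈ T, Gd b p) : Nat.Coprime b (∏ p ∈ T, p) := by
  refine Nat.Coprime.prod_right (fun p hp => ?_)
  refine Nat.Coprime.symm ((Nat.Prime.coprime_iff_not_dvd (hT p hp).1).2 (fun h => ?_))
  exact (hT p hp).2 (Dvd.dvd.mul_right h _)

theorem cop2 (b : ℕ) (hb : 2 ≤ b) (T : Finset ℕ) (hT : ∀ p ∈ T, Gd b p) :
    IsUnit ((b : ZMod (∏ p ∈ T, p)) - 1) := by
  have h1 : Nat.Coprime (b - 1) (∏ p ∈ T, p) := by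
    refine Nat.Coprime.prod_right (fun p hp => ?_)
    refine Nat.Coprime.symm ((Nat.Prime.coprime_iff_not_dvd (hT p hp).1).2 (fun h => ?_))
    exact (hT p hp).2 (Dvd.dvd.mul_left h _)
  have h2 : ((b - 1 : ℕ) : ZMod (∏ p ∈ T, p)) = (b : ZMod (∏ p ∈ T, p)) - 1 := by
    rw [Nat.cast_sub (by omega)]
    simp
  rw [← h2, ← ZMod.coe_unitOfCoprime (b - 1) h1]
  exact Units.isUnit _

theorem oT_pos (b : ℕ) (T : Finset ℕ) (hT : ∀ p ∈ T, Gd b p) : 0 < oT b T := by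
  have : NeZero (∏ p ∈ T, p) := ⟨(prod_pos' b T hT).ne'⟩
  unfold oT
  rw [← ZMod.coe_unitOfCoprime b (cop1 b T hT), orderOf_units]
  exact orderOf_pos _

theorem oT_dvd (b : ℕ) (hb : 2 ≤ b) (T : Finset ℕ) (p : ℕ) (hp : p ∈ T) :
    p ∣ b ^ (oT b T) - 1 := by
  have h1 : (b : ZMod (∏ p ∈ T, p)) ^ (oT b T) = 1 := pow_orderOf_eq_one _
  have h2 : 1 ≤ b ^ (oT b T) := Nat.one_le_pow _ _ (by omega)
  have h3 : ((b ^ (oT b T) - 1 : ℕ) : ZMod (∏ p ∈ T, p)) = 0 := by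
    rw [Nat.cast_sub h2]
    push_cast
    rw [h1, sub_self]
  exact (Finset.dvd_prod_of_mem _ hp).trans ((ZMod.natCast_eq_zero_iff _ _).1 h3)

/-- the good primes of order at most `t` -/
def PT (b t : ℕ) : Finset ℕ :=
  ((Icc 1 t).biUnion (fun e => (b ^ e - 1).primeFactors)).filter (fun p => ¬ p ∣ b * (b - 1))

theorem mem_PT_good (b t p : ℕ) (hp : p ∈ PT b t) : Gd b p := by
  unfold PT at hp
  rw [mem_filter, mem_biUnion] at hp
  obtain ⟨⟨e, _, he⟩, h2⟩ := hp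
  exact ⟨Nat.prime_of_mem_primeFactors he, h2⟩

theorem sub_PT (b : ℕ) (hb : 2 ≤ b) (t : ℕ) (T : Finset ℕ) (hT : ∀ p ∈ T, Gd b p)
    (ho : oT b T ≤ t) : T ⊆ PT b t := by
  intro p hp
  unfold PT
  rw [mem_filter, mem_biUnion]
  refine ⟨⟨oT b T, mem_Icc.2 ⟨oT_pos b T hT, ho⟩, ?_⟩, (hT p hp).2⟩
  rw [Nat.mem_primeFactors]
  refine ⟨(hT p hp).1, oT_dvd b hb T p hp, ?_⟩
  have h1 : 2 ^ 1 ≤ b ^ (oT b T) := by
    calc 2 ^ 1 ≤ b ^ 1 := Nat.pow_le_pow_left hb 1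
      _ ≤ b ^ (oT b T) := Nat.pow_le_pow_right (by omega) (oT_pos b T hT)
  omega

theorem card_pf (b e : ℕ) (hb : 2 ≤ b) (he : 1 ≤ e) : (b ^ e - 1).primeFactors.card ≤ b * e := by
  have h1 : 2 ^ 1 ≤ b ^ e := by
    calc 2 ^ 1 ≤ b ^ 1 := Nat.pow_le_pow_left hb 1
      _ ≤ b ^ e := Nat.pow_le_pow_right (by omega) he
  have h2 : 2 ^ (b ^ e - 1).primeFactors.card ≤ b ^ e - 1 := by
    calc 2 ^ (b ^ e - 1).primeFactors.card = ∏ _p ∈ (b ^ e - 1).primeFactors, 2 := by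
          rw [prod_const]
      _ ≤ ∏ p ∈ (b ^ e - 1).primeFactors, p :=
          Finset.prod_le_prod' (fun p hp => (Nat.prime_of_mem_primeFactors hp).two_le)
      _ ≤ b ^ e - 1 := Nat.le_of_dvd (by omega) (Nat.prod_primeFactors_dvd _)
  have h3 : b ^ e ≤ 2 ^ (b * e) := by
    rw [pow_mul]
    exact Nat.pow_le_pow_left (Nat.lt_two_pow_self).le e
  have h4 : 2 ^ (b ^ e - 1).primeFactors.card ≤ 2 ^ (b * e) := by omega
  exact (Nat.pow_le_pow_iff_right (by norm_num)).1 h4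

theorem card_PT (b t : ℕ) (hb : 2 ≤ b) : (PT b t).card ≤ t * (b * t) := by
  unfold PT
  refine (card_filter_le _ _).trans (card_biUnion_le.trans ?_)
  calc ∑ e ∈ Icc 1 t, (b ^ e - 1).primeFactors.card ≤ ∑ _e ∈ Icc 1 t, b * t := by
        refine sum_le_sum (fun e he => ?_)
        rw [mem_Icc] at he
        exact (card_pf b e hb he.1).trans (Nat.mul_le_mul_left _ he.2)
    _ = t * (b * t) := by rw [sum_const, Nat.card_Icc, smul_eq_mul, Nat.add_sub_cancel]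

theorem sum_powerset_xT (U : Finset ℕ) :
    ∑ T ∈ U.powerset, xT T = ∏ p ∈ U, (1 + 1 / ((p : ℝ) - 2)) := by
  classical
  rw [Finset.prod_one_add]
  rfl

/-- the truncated sums -/
theorem trunc_le (b : ℕ) (hb : 2 ≤ b) (S : Finset ℕ) (hS : ∀ p ∈ S, Gd b p) (j : ℕ) :
    ∑ T ∈ S.powerset.filter (fun T => oT b T ≤ 2 ^ (j + 1)), xT T ≤
      Real.exp 6 * ((b : ℝ) + 2) ^ 24 * (((j + 1 : ℕ) : ℝ)) ^ 24 := by
  have h1 : ∑ T ∈ S.powerset.filter (fun T => oT b T ≤ 2 ^ (j + 1)), xT T ≤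
      ∑ T ∈ (PT b (2 ^ (j + 1))).powerset, xT T := by
    refine sum_le_sum_of_subset_of_nonneg ?_ ?_
    · intro T hT
      rw [mem_filter, mem_powerset] at hT
      rw [mem_powerset]
      exact sub_PT b hb _ T (fun p hp => hS p (hT.1 hp)) hT.2
    · intro T hT _
      rw [mem_powerset] at hT
      exact xT_nonneg b T (fun p hp => mem_PT_good b _ p (hT hp))
  rw [sum_powerset_xT] at h1
  have hcard : (PT b (2 ^ (j + 1))).card ≤ 2 ^ (b + 2 * (j + 1)) := by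
    refine (card_PT b _ hb).trans ?_
    have h2 : b ≤ 2 ^ b := (Nat.lt_two_pow_self).le
    calc 2 ^ (j + 1) * (b * 2 ^ (j + 1)) = b * 2 ^ (2 * (j + 1)) := by
          rw [two_mul, pow_add]
          ring
      _ ≤ 2 ^ b * 2 ^ (2 * (j + 1)) := Nat.mul_le_mul_right _ h2
      _ = 2 ^ (b + 2 * (j + 1)) := (pow_add _ _ _).symm
  have h2 := prod_bound (b + 2 * (j + 1)) (by omega) (PT b (2 ^ (j + 1)))
    (fun p hp => ⟨(mem_PT_good b _ p hp).1, (mem_PT_good b _ p hp).three_le⟩) hcard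
  refine (h1.trans h2).trans ?_
  rw [mul_assoc, ← mul_pow]
  refine mul_le_mul_of_nonneg_left ?_ (Real.exp_pos _).le
  refine pow_le_pow_left₀ (Nat.cast_nonneg _) ?_ 24
  push_cast
  have hj : (0 : ℝ) ≤ (j : ℝ) := Nat.cast_nonneg _
  have hbR : (0 : ℝ) ≤ (b : ℝ) := Nat.cast_nonneg _
  nlinarith [mul_nonneg hj hbR]

/-- the tail of the majorant -/
theorem tail_series (C ε : ℝ) (hC : 0 ≤ C) (hε : 0 < ε) : ∃ j0 : ℕ, ∀ J : ℕ,
    ∑ j ∈ Ico j0 J, (1 / 2 : ℝ) ^ j * (C * (((j + 1 : ℕ) : ℝ)) ^ 24) ≤ ε := by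
  set g : ℕ → ℝ := fun j => (1 / 2 : ℝ) ^ j * (C * (((j + 1 : ℕ) : ℝ)) ^ 24) with hg
  have hg0 : ∀ j, 0 ≤ g j := fun j => by rw [hg]; positivity
  have hsum : Summable g := by
    have h1 : Summable (fun n : ℕ => (n : ℝ) ^ 24 * (1 / 2 : ℝ) ^ n) :=
      summable_pow_mul_geometric_of_norm_lt_one 24 (by norm_num)
    have h2 := (summable_nat_add_iff 1).2 h1
    have h3 := h2.mul_left (2 * C)
    refine h3.congr (fun j => ?_)
    rw [hg]
    simp only [pow_succ (1 / 2 : ℝ) j]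
    ring
  have ht := tendsto_sum_nat_add g
  obtain ⟨j0, hj0⟩ := (ht.eventually (gt_mem_nhds hε)).exists
  refine ⟨j0, fun J => ?_⟩
  rw [Finset.sum_Ico_eq_sum_range]
  have h4 : Summable (fun k => g (k + j0)) := (summable_nat_add_iff j0).2 hsum
  calc ∑ i ∈ range (J - j0), g (j0 + i) = ∑ i ∈ range (J - j0), g (i + j0) :=
        sum_congr rfl (fun i _ => by rw [add_comm])
    _ ≤ ∑' k, g (k + j0) := h4.sum_le_tsum _ (fun k _ => hg0 _)
    _ ≤ ε := hj0.le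

/-- the tail of Romanoff's sum -/
theorem tail (b : ℕ) (hb : 2 ≤ b) (ε : ℝ) (hε : 0 < ε) : ∃ j0 : ℕ, ∀ S : Finset ℕ,
    (∀ p ∈ S, Gd b p) →
    ∑ T ∈ S.powerset, (if 2 ^ j0 ≤ oT b T then xT T * (1 / (oT b T : ℝ)) else 0) ≤ ε := by
  obtain ⟨j0, hj0⟩ := tail_series (Real.exp 6 * ((b : ℝ) + 2) ^ 24) ε (by positivity) hε
  refine ⟨j0, fun S hS => ?_⟩
  set J : ℕ := ∑ T ∈ S.powerset, (Nat.log 2 (oT b T) + 1) with hJ
  refine le_trans ?_ (hj0 J)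
  have h1 : ∀ T ∈ S.powerset, (if 2 ^ j0 ≤ oT b T then xT T * (1 / (oT b T : ℝ)) else 0) ≤
      ∑ j ∈ Ico j0 J, (if oT b T ≤ 2 ^ (j + 1) then (1 / 2 : ℝ) ^ j * xT T else 0) := by
    intro T hT
    have hgood : ∀ p ∈ T, Gd b p := fun p hp => hS p (mem_powerset.1 hT hp)
    have hx := xT_nonneg b T hgood
    have ho := oT_pos b T hgood
    have hnn : ∀ j ∈ Ico j0 J, (0 : ℝ) ≤
        (if oT b T ≤ 2 ^ (j + 1) then (1 / 2 : ℝ) ^ j * xT T else 0) := by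
      intro j _
      split_ifs
      · positivity
      · exact le_rfl
    by_cases h : 2 ^ j0 ≤ oT b T
    · rw [if_pos h]
      have hlog1 : 2 ^ Nat.log 2 (oT b T) ≤ oT b T := Nat.pow_log_le_self 2 ho.ne'
      have hlog2 : oT b T < 2 ^ (Nat.log 2 (oT b T) + 1) :=
        Nat.lt_pow_succ_log_self (by norm_num) _
      have hmem : Nat.log 2 (oT b T) ∈ Ico j0 J := by
        rw [mem_Ico]
        constructor
        · exact Nat.le_log_of_pow_le (by norm_num) h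
        · rw [hJ]
          have := Finset.single_le_sum (f := fun T => Nat.log 2 (oT b T) + 1)
            (fun i _ => Nat.zero_le _) hT
          exact this
      refine le_trans ?_ (Finset.single_le_sum hnn hmem)
      rw [if_pos hlog2.le, mul_comm]
      refine mul_le_mul_of_nonneg_right ?_ hx
      rw [one_div_pow]
      refine one_div_le_one_div_of_le (by positivity) ?_
      exact_mod_cast hlog1
    · rw [if_neg h]
      exact sum_nonneg hnn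
  refine (sum_le_sum h1).trans ?_
  rw [sum_comm]
  refine sum_le_sum (fun j _ => ?_)
  rw [← sum_filter, ← mul_sum]
  exact mul_le_mul_of_nonneg_left (trunc_le b hb S hS j) (by positivity)

/-- the local factors as a sum over the sets of primes -/
theorem expand (b : ℕ) (S : Finset ℕ) (hS : ∀ p ∈ S, Gd b p) (δ : ℤ) :
    ∏ p ∈ S, (if (p : ℤ) ∣ δ then (1 - 1 / (p : ℝ))⁻¹
      else (1 - 2 / (p : ℝ)) / (1 - 1 / (p : ℝ)) ^ 2) =
    (∏ p ∈ S, (1 - 2 / (p : ℝ)) / (1 - 1 / (p : ℝ)) ^ 2) *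
      ∑ T ∈ S.powerset, (if ∀ p ∈ T, (p : ℤ) ∣ δ then xT T else 0) := by
  classical
  have h1 : ∀ p ∈ S, (if (p : ℤ) ∣ δ then (1 - 1 / (p : ℝ))⁻¹
      else (1 - 2 / (p : ℝ)) / (1 - 1 / (p : ℝ)) ^ 2) =
      ((1 - 2 / (p : ℝ)) / (1 - 1 / (p : ℝ)) ^ 2) *
        (1 + (if (p : ℤ) ∣ δ then 1 / ((p : ℝ) - 2) else 0)) := by
    intro p hp
    have h2 := (hS p hp).one_le
    have h3 : (p : ℝ) ≠ 0 := by linarith
    have h4 : (p : ℝ) - 1 ≠ 0 := by linarith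
    have h5 : (p : ℝ) - 2 ≠ 0 := by linarith
    split_ifs
    · have h6 : 1 - 1 / (p : ℝ) = ((p : ℝ) - 1) / p := by field_simp
      have h7 : 1 - 2 / (p : ℝ) = ((p : ℝ) - 2) / p := by field_simp
      rw [h6, h7]
      field_simp
      ring
    · rw [add_zero, mul_one]
  rw [Finset.prod_congr rfl h1, Finset.prod_mul_distrib, Finset.prod_one_add]
  congr 1
  refine Finset.sum_congr rfl (fun T _ => ?_)
  rw [Finset.prod_ite_zero]
  rfl

/-- the constant is at most one -/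
theorem const_le (b : ℕ) (S : Finset ℕ) (hS : ∀ p ∈ S, Gd b p) :
    0 ≤ ∏ p ∈ S, (1 - 2 / (p : ℝ)) / (1 - 1 / (p : ℝ)) ^ 2 ∧
    ∏ p ∈ S, (1 - 2 / (p : ℝ)) / (1 - 1 / (p : ℝ)) ^ 2 ≤ 1 := by
  have h1 : ∀ p ∈ S, 0 ≤ (1 - 2 / (p : ℝ)) / (1 - 1 / (p : ℝ)) ^ 2 ∧
      (1 - 2 / (p : ℝ)) / (1 - 1 / (p : ℝ)) ^ 2 ≤ 1 := by
    intro p hp
    have h2 := (hS p hp).one_le
    have h3 : (0 : ℝ) < (p : ℝ) := by linarith
    have h4 : (0 : ℝ) < (p : ℝ) - 1 := by linarith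
    have h6 : 1 - 1 / (p : ℝ) = ((p : ℝ) - 1) / p := by field_simp
    have h7 : 1 - 2 / (p : ℝ) = ((p : ℝ) - 2) / p := by field_simp
    have h8 : (0 : ℝ) < 1 - 1 / (p : ℝ) := by rw [h6]; positivity
    have h9 : (0 : ℝ) ≤ 1 - 2 / (p : ℝ) := by
      rw [h7]
      exact div_nonneg (by linarith) h3.le
    refine ⟨by positivity, ?_⟩
    rw [div_le_one (by positivity)]
    have h10 : (1 - 1 / (p : ℝ)) ^ 2 = 1 - 2 / (p : ℝ) + (1 / (p : ℝ)) ^ 2 := by ring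
    rw [h10]
    have : 0 ≤ (1 / (p : ℝ)) ^ 2 := by positivity
    linarith
  exact ⟨prod_nonneg (fun p hp => (h1 p hp).1),
    prod_le_one (fun p hp => (h1 p hp).1) (fun p hp => (h1 p hp).2)⟩

/-- the main term -/
theorem main_eq (b : ℕ) (S : Finset ℕ) (hS : ∀ p ∈ S, Gd b p) :
    (∏ p ∈ S, (1 - 2 / (p : ℝ)) / (1 - 1 / (p : ℝ)) ^ 2) *
      ∑ T ∈ S.powerset, xT T * (1 / ((∏ p ∈ T, p : ℕ) : ℝ)) = 1 := by
  classical
  have h1 : ∑ T ∈ S.powerset, xT T * (1 / ((∏ p ∈ T, p : ℕ) : ℝ)) =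
      ∏ p ∈ S, (1 + 1 / ((p : ℝ) - 2) * (1 / (p : ℝ))) := by
    rw [Finset.prod_one_add]
    refine Finset.sum_congr rfl (fun T _ => ?_)
    rw [Finset.prod_mul_distrib, Finset.prod_div_distrib (f := fun _ : ℕ => (1 : ℝ))
      (g := fun p : ℕ => (p : ℝ))]
    unfold xT
    push_cast
    simp
  rw [h1, ← Finset.prod_mul_distrib]
  refine Finset.prod_eq_one (fun p hp => ?_)
  have h2 := (hS p hp).one_le
  have h3 : (p : ℝ) ≠ 0 := by linarith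
  have h4 : (p : ℝ) - 1 ≠ 0 := by linarith
  have h5 : (p : ℝ) - 2 ≠ 0 := by linarith
  have h6 : 1 - 1 / (p : ℝ) = ((p : ℝ) - 1) / p := by field_simp
  have h7 : 1 - 2 / (p : ℝ) = ((p : ℝ) - 2) / p := by field_simp
  have h8 : 1 + 1 / ((p : ℝ) - 2) * (1 / (p : ℝ)) = ((p : ℝ) - 1) ^ 2 / (((p : ℝ) - 2) * p) := by
    field_simp
    ring
  rw [h6, h7, h8]
  field_simp

end Pool.Agent.Y438.LD
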