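import Pool.Agent.Y438.LD.A3

/-!
# LD-R, part 4: the mean value (job 8847)
-/

set_option autoImplicit false

open Finset Filter

namespace Pool.Agent.Y438.LD

/-- the sum of the powers -/
def DX (b : ℕ) {r Y : ℕ} (ν : Fin r → Fin Y) : ℕ := ∑ j, b ^ ((ν j : ℕ) + 1)

/-- the finitely many sets of the head -/
theorem head (b : ℕ) (hb : 2 ≤ b) (F : Finset (Finset ℕ)) (hF : ∀ T ∈ F, ∀ p ∈ T, Gd b p)
    (ε : ℝ) (hε : 0 < ε) : ∀ᶠ r : ℕ in atTop, ∀ᶠ Y : ℕ in atTop, ∀ T ∈ F,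
    NC b (∏ p ∈ T, p) r Y ≤ (1 / ((∏ p ∈ T, p : ℕ) : ℝ) + ε) * ((Y : ℝ) ^ r) ^ 2 := by
  have h1 : ∀ T ∈ F, ∀ᶠ r : ℕ in atTop, ∀ᶠ Y : ℕ in atTop,
      NC b (∏ p ∈ T, p) r Y ≤ (1 / ((∏ p ∈ T, p : ℕ) : ℝ) + ε) * ((Y : ℝ) ^ r) ^ 2 := by
    intro T hT
    obtain ⟨κ, hκ0, hκ1, Y0, hY0⟩ := NC_le_fourier b (∏ p ∈ T, p) (prod_pos' b T (hF T hT))
      (cop1 b T (hF T hT)) (cop2 b hb T (hF T hT))
    have ht : Tendsto (fun r : ℕ => (κ ^ 2) ^ r) atTop (nhds 0) :=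
      tendsto_pow_atTop_nhds_zero_of_lt_one (by positivity) (by nlinarith)
    filter_upwards [ht.eventually (gt_mem_nhds hε)] with r hr
    filter_upwards [eventually_ge_atTop Y0] with Y hY
    refine (hY0 Y hY r).trans ?_
    refine mul_le_mul_of_nonneg_right ?_ (by positivity)
    rw [pow_mul]
    linarith
  have h2 := (Filter.eventually_all_finset F).2 h1
  filter_upwards [h2] with r hr
  exact (Filter.eventually_all_finset F).2 hr

/-- the counts are bounded by the coincidences modulo the product -/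
theorem count_le_NC (b r Y : ℕ) (T : Finset ℕ) (hT : ∀ p ∈ T, Gd b p) :
    ∑ ν : Fin r → Fin Y, ∑ ν' : Fin r → Fin Y,
      (if ∀ p ∈ T, (p : ℤ) ∣ ((DX b ν : ℤ) - (DX b ν' : ℤ)) then (1 : ℝ) else 0) ≤
      NC b (∏ p ∈ T, p) r Y := by
  unfold NC
  refine sum_le_sum (fun ν _ => sum_le_sum (fun ν' _ => ?_))
  by_cases h : ∀ p ∈ T, (p : ℤ) ∣ ((DX b ν : ℤ) - (DX b ν' : ℤ))
  · rw [if_pos h, if_pos]
    have h1 : (∏ p ∈ T, p) ∣ ((DX b ν : ℤ) - (DX b ν' : ℤ)).natAbs := by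
      refine Finset.prod_primes_dvd _ (fun p hp => (hT p hp).1.prime) (fun p hp => ?_)
      exact Int.natCast_dvd.1 (h p hp)
    have h2 : ((∏ p ∈ T, p : ℕ) : ℤ) ∣ ((DX b ν : ℤ) - (DX b ν' : ℤ)) := Int.natCast_dvd.2 h1
    have h3 := (ZMod.intCast_zmod_eq_zero_iff_dvd ((DX b ν : ℤ) - (DX b ν' : ℤ))
      (∏ p ∈ T, p)).2 h2
    rw [Int.cast_sub, sub_eq_zero] at h3
    unfold DX at h3
    push_cast at h3
    exact h3
  · rw [if_neg h]
    split_ifs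
    · exact zero_le_one
    · exact le_rfl

/-- the powers of the logarithm are small compared with `Y` -/
theorem log_small (E : ℕ) (ε : ℝ) (hε : 0 < ε) : ∀ᶠ Y : ℕ in atTop,
    Real.exp 6 * (((E * (Nat.log 2 Y + 1) + 1 : ℕ) : ℝ)) ^ 24 * (1 / (Y : ℝ)) ≤ ε := by
  have hc : (0 : ℝ) < ε / (Real.exp 6 * (4 * E + 1) ^ 24) := by positivity
  have h1 := (Real.isLittleO_pow_log_id_atTop (n := 24)).bound hc
  have h2 := (tendsto_natCast_atTop_atTop (R := ℝ)).eventually h1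
  filter_upwards [h2, eventually_ge_atTop 3] with Y hY hY3
  have hYR : (3 : ℝ) ≤ (Y : ℝ) := by exact_mod_cast hY3
  have hY0 : (0 : ℝ) < (Y : ℝ) := by linarith
  have hlog1 : 1 ≤ Real.log Y := by
    rw [Real.le_log_iff_exp_le hY0]
    have := Real.exp_one_lt_d9
    linarith
  have h2 : (Nat.log 2 Y : ℝ) ≤ Real.log Y / Real.log 2 := by
    have := Real.natLog_le_logb Y 2
    rw [Real.logb] at this
    exact_mod_cast this
  have h3 : Real.log Y / Real.log 2 ≤ 2 * Real.log Y := by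
    have hl2 := Real.log_two_gt_d9
    rw [div_le_iff₀ (by linarith)]
    nlinarith
  have h4 : (((E * (Nat.log 2 Y + 1) + 1 : ℕ) : ℝ)) ≤ (4 * E + 1) * Real.log Y := by
    push_cast
    have hE : (0 : ℝ) ≤ (E : ℝ) := Nat.cast_nonneg _
    have h5 : (Nat.log 2 Y : ℝ) + 1 ≤ 4 * Real.log Y := by linarith
    have h6 := mul_le_mul_of_nonneg_left h5 hE
    linarith
  rw [id, Real.norm_of_nonneg hY0.le, Real.norm_of_nonneg (by positivity)] at hY
  have h7 : (((E * (Nat.log 2 Y + 1) + 1 : ℕ) : ℝ)) ^ 24 ≤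
      (4 * E + 1) ^ 24 * (ε / (Real.exp 6 * (4 * E + 1) ^ 24) * Y) := by
    refine (pow_le_pow_left₀ (Nat.cast_nonneg _) h4 24).trans ?_
    rw [mul_pow]
    exact mul_le_mul_of_nonneg_left hY (by positivity)
  rw [mul_one_div, div_le_iff₀ hY0]
  calc Real.exp 6 * (((E * (Nat.log 2 Y + 1) + 1 : ℕ) : ℝ)) ^ 24
      ≤ Real.exp 6 * ((4 * E + 1) ^ 24 * (ε / (Real.exp 6 * (4 * E + 1) ^ 24) * Y)) :=
        mul_le_mul_of_nonneg_left h7 (Real.exp_pos _).le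
    _ = ε * Y := by
        field_simp

/-- the mean value -/
theorem rom (b : ℕ) (hb : 2 ≤ b) (E : ℕ) (η : ℝ) (hη : 0 < η) :
    ∃ r0 : ℕ, ∀ r : ℕ, r0 ≤ r → ∃ Y0 : ℕ, ∀ Y : ℕ, Y0 ≤ Y → ∀ z : ℕ, (z : ℝ) ≤ (Y : ℝ) ^ E →
    ∑ ν : Fin r → Fin Y, ∑ ν' : Fin r → Fin Y,
      ∏ p ∈ ((Icc 1 z).filter Nat.Prime).filter (fun p => ¬ p ∣ b * (b - 1)),
        (if (p : ℤ) ∣ ((DX b ν : ℤ) - (DX b ν' : ℤ)) then (1 - 1 / (p : ℝ))⁻¹
          else (1 - 2 / (p : ℝ)) / (1 - 1 / (p : ℝ)) ^ 2) ≤ (1 + η) * ((Y : ℝ) ^ r) ^ 2 := by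
  classical
  obtain ⟨j0, hj0⟩ := tail b hb (η / 3) (by positivity)
  set F := (PT b (2 ^ j0)).powerset with hF
  have hFgood : ∀ T ∈ F, ∀ p ∈ T, Gd b p := by
    intro T hT p hp
    rw [hF, mem_powerset] at hT
    exact mem_PT_good b _ p (hT hp)
  set A : ℝ := ∑ T ∈ F, xT T with hA
  have hA0 : 0 ≤ A := sum_nonneg (fun T hT => xT_nonneg b T (hFgood T hT))
  set ε : ℝ := η / (3 * (A + 1)) with hε
  have hε0 : 0 < ε := by rw [hε]; positivity
  have hεA : ε * A ≤ η / 3 := by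
    rw [hε, div_mul_eq_mul_div, div_le_div_iff₀ (by positivity) (by norm_num)]
    nlinarith
  obtain ⟨r0, hr0⟩ := eventually_atTop.1 (head b hb F hFgood ε hε0)
  refine ⟨max r0 1, fun r hr => ?_⟩
  have hr1 := hr0 r ((le_max_left _ _).trans hr)
  have hrp : 1 ≤ r := (le_max_right _ _).trans hr
  obtain ⟨s, rfl⟩ : ∃ s, r = s + 1 := ⟨r - 1, by omega⟩
  obtain ⟨Y0, hY0⟩ := eventually_atTop.1
    (hr1.and ((log_small E (η / 3) (by positivity)).and (eventually_ge_atTop 1)))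
  refine ⟨Y0, fun Y hY z hz => ?_⟩
  obtain ⟨hhead, hlog, hY1⟩ := hY0 Y hY
  set S := ((Icc 1 z).filter Nat.Prime).filter (fun p => ¬ p ∣ b * (b - 1)) with hSdef
  have hS : ∀ p ∈ S, Gd b p := by
    intro p hp
    rw [hSdef, mem_filter, mem_filter] at hp
    exact ⟨hp.1.2, hp.2⟩
  set W : ℝ := ((Y : ℝ) ^ (s + 1)) ^ 2 with hW
  have hW0 : 0 ≤ W := by positivity
  set C : ℝ := ∏ p ∈ S, (1 - 2 / (p : ℝ)) / (1 - 1 / (p : ℝ)) ^ 2 with hC
  obtain ⟨hC0, hC1⟩ := const_le b S hS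
  rw [← hC] at hC0 hC1
  have hmain := main_eq b S hS
  rw [← hC] at hmain
  -- the expansion
  have h1 : ∑ ν : Fin (s + 1) → Fin Y, ∑ ν' : Fin (s + 1) → Fin Y,
      ∏ p ∈ S, (if (p : ℤ) ∣ ((DX b ν : ℤ) - (DX b ν' : ℤ)) then (1 - 1 / (p : ℝ))⁻¹
          else (1 - 2 / (p : ℝ)) / (1 - 1 / (p : ℝ)) ^ 2) =
      C * ∑ T ∈ S.powerset, xT T * ∑ ν : Fin (s + 1) → Fin Y, ∑ ν' : Fin (s + 1) → Fin Y,
        (if ∀ p ∈ T, (p : ℤ) ∣ ((DX b ν : ℤ) - (DX b ν' : ℤ)) then (1 : ℝ) else 0) := by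
    have h2 : ∀ ν ν' : Fin (s + 1) → Fin Y,
        ∏ p ∈ S, (if (p : ℤ) ∣ ((DX b ν : ℤ) - (DX b ν' : ℤ)) then (1 - 1 / (p : ℝ))⁻¹
          else (1 - 2 / (p : ℝ)) / (1 - 1 / (p : ℝ)) ^ 2) =
        ∑ T ∈ S.powerset, C * (xT T *
          (if ∀ p ∈ T, (p : ℤ) ∣ ((DX b ν : ℤ) - (DX b ν' : ℤ)) then (1 : ℝ) else 0)) := by
      intro ν ν'
      rw [expand b S hS, ← hC, mul_sum]
      refine sum_congr rfl (fun T _ => ?_)
      split_ifs
      · rw [mul_one]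
      · simp
    simp only [h2]
    rw [mul_sum]
    have h3 : ∀ ν : Fin (s + 1) → Fin Y, ∑ ν' : Fin (s + 1) → Fin Y, ∑ T ∈ S.powerset,
        C * (xT T * (if ∀ p ∈ T, (p : ℤ) ∣ ((DX b ν : ℤ) - (DX b ν' : ℤ)) then (1 : ℝ) else 0)) =
        ∑ T ∈ S.powerset, ∑ ν' : Fin (s + 1) → Fin Y,
        C * (xT T * (if ∀ p ∈ T, (p : ℤ) ∣ ((DX b ν : ℤ) - (DX b ν' : ℤ)) then (1 : ℝ) else 0)) :=
      fun ν => sum_comm
    simp only [h3]
    rw [sum_comm]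
    refine sum_congr rfl (fun T _ => ?_)
    rw [← mul_assoc, mul_sum]
    refine sum_congr rfl (fun ν _ => ?_)
    rw [mul_sum]
    refine sum_congr rfl (fun ν' _ => ?_)
    ring
  rw [h1]
  -- the bound for each set
  have h2 : ∀ T ∈ S.powerset, xT T * ∑ ν : Fin (s + 1) → Fin Y, ∑ ν' : Fin (s + 1) → Fin Y,
        (if ∀ p ∈ T, (p : ℤ) ∣ ((DX b ν : ℤ) - (DX b ν' : ℤ)) then (1 : ℝ) else 0) ≤
      (xT T * (1 / ((∏ p ∈ T, p : ℕ) : ℝ)) + (if T ∈ F then ε * xT T else 0) +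
        (if 2 ^ j0 ≤ oT b T then xT T * (1 / (oT b T : ℝ)) else 0) + xT T * (1 / (Y : ℝ))) * W := by
    intro T hT
    have hTg : ∀ p ∈ T, Gd b p := fun p hp => hS p (mem_powerset.1 hT hp)
    have hx := xT_nonneg b T hTg
    have hYi : (0 : ℝ) ≤ 1 / (Y : ℝ) := by positivity
    have hPi : (0 : ℝ) ≤ 1 / ((∏ p ∈ T, p : ℕ) : ℝ) := by positivity
    have hOi : (0 : ℝ) ≤ 1 / (oT b T : ℝ) := by positivity
    have hcnt := count_le_NC b (s + 1) Y T hTg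
    by_cases h : T ∈ F
    · rw [if_pos h]
      have h3 := hcnt.trans (hhead T h)
      have h4 := mul_le_mul_of_nonneg_left h3 hx
      refine h4.trans ?_
      have h5 : xT T * ((1 / ((∏ p ∈ T, p : ℕ) : ℝ) + ε) * W) =
          (xT T * (1 / ((∏ p ∈ T, p : ℕ) : ℝ)) + ε * xT T) * W := by ring
      rw [h5]
      refine mul_le_mul_of_nonneg_right ?_ hW0
      have h6 : (0 : ℝ) ≤ (if 2 ^ j0 ≤ oT b T then xT T * (1 / (oT b T : ℝ)) else 0) := by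
        split_ifs
        · positivity
        · exact le_rfl
      have h7 : 0 ≤ xT T * (1 / (Y : ℝ)) := by positivity
      linarith
    · rw [if_neg h]
      have ho : 2 ^ j0 ≤ oT b T := by
        by_contra hcon
        exact h (mem_powerset.2 (sub_PT b hb _ T hTg (by omega)))
      rw [if_pos ho]
      have h3 := hcnt.trans (NC_le_ord b (∏ p ∈ T, p) (prod_pos' b T hTg) (cop1 b T hTg) s Y hY1)
      have h4 := mul_le_mul_of_nonneg_left h3 hx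
      refine h4.trans ?_
      have h5 : xT T * ((1 / (orderOf (b : ZMod (∏ p ∈ T, p)) : ℝ) + 1 / Y) * W) =
          (xT T * (1 / (oT b T : ℝ)) + xT T * (1 / (Y : ℝ))) * W := by
        unfold oT
        ring
      rw [← hW, h5]
      refine mul_le_mul_of_nonneg_right ?_ hW0
      have h6 : 0 ≤ xT T * (1 / ((∏ p ∈ T, p : ℕ) : ℝ)) := by positivity
      linarith
  have h3 := mul_le_mul_of_nonneg_left (sum_le_sum h2) hC0
  refine h3.trans ?_
  rw [← sum_mul, ← mul_assoc]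
  refine mul_le_mul_of_nonneg_right ?_ hW0
  rw [sum_add_distrib, sum_add_distrib, sum_add_distrib, mul_add, mul_add, mul_add, hmain]
  have hp1 : ∑ T ∈ S.powerset, (if T ∈ F then ε * xT T else 0) ≤ η / 3 := by
    rw [← sum_filter]
    refine le_trans ?_ hεA
    rw [hA, mul_sum]
    refine sum_le_sum_of_subset_of_nonneg ?_ ?_
    · intro T hT
      exact (mem_filter.1 hT).2
    · intro T hT _
      exact mul_nonneg hε0.le (xT_nonneg b T (hFgood T hT))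
  have hp1n : 0 ≤ ∑ T ∈ S.powerset, (if T ∈ F then ε * xT T else 0) := by
    refine sum_nonneg (fun T hT => ?_)
    split_ifs
    · exact mul_nonneg hε0.le (xT_nonneg b T (fun p hp => hS p (mem_powerset.1 hT hp)))
    · exact le_rfl
  have hp2 := hj0 S hS
  have hp2n : 0 ≤ ∑ T ∈ S.powerset,
      (if 2 ^ j0 ≤ oT b T then xT T * (1 / (oT b T : ℝ)) else 0) := by
    refine sum_nonneg (fun T hT => ?_)
    have := xT_nonneg b T (fun p hp => hS p (mem_powerset.1 hT hp))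
    split_ifs
    · positivity
    · exact le_rfl
  have hp3 : ∑ T ∈ S.powerset, xT T * (1 / (Y : ℝ)) ≤ η / 3 := by
    rw [← sum_mul, sum_powerset_xT]
    refine le_trans ?_ hlog
    refine mul_le_mul_of_nonneg_right ?_ (by positivity)
    refine prod_bound _ (by omega) S (fun p hp => ⟨(hS p hp).1, (hS p hp).three_le⟩) ?_
    have hc1 : S.card ≤ z := by
      rw [hSdef]
      refine (card_filter_le _ _).trans ((card_filter_le _ _).trans ?_)
      rw [Nat.card_Icc, Nat.add_sub_cancel]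
    have hc2 : z ≤ Y ^ E := by exact_mod_cast hz
    have hc3 : Y ^ E ≤ (2 ^ (Nat.log 2 Y + 1)) ^ E :=
      Nat.pow_le_pow_left (Nat.lt_pow_succ_log_self (by norm_num) _).le E
    calc S.card ≤ (2 ^ (Nat.log 2 Y + 1)) ^ E := hc1.trans (hc2.trans hc3)
      _ = 2 ^ (E * (Nat.log 2 Y + 1)) := by rw [← pow_mul, mul_comm]
      _ ≤ 2 ^ (E * (Nat.log 2 Y + 1) + 1) := Nat.pow_le_pow_right (by norm_num) (by omega)
  have hp3n : 0 ≤ ∑ T ∈ S.powerset, xT T * (1 / (Y : ℝ)) := by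
    refine sum_nonneg (fun T hT => ?_)
    have := xT_nonneg b T (fun p hp => hS p (mem_powerset.1 hT hp))
    positivity
  have hq : ∀ x : ℝ, 0 ≤ x → x ≤ η / 3 → C * x ≤ η / 3 := by
    intro x hx0 hx
    calc C * x ≤ 1 * x := mul_le_mul_of_nonneg_right hC1 hx0
      _ = x := one_mul x
      _ ≤ η / 3 := hx
  have hq1 := hq _ hp1n hp1
  have hq2 := hq _ hp2n hp2
  have hq3 := hq _ hp3n hp3
  linarith

end Pool.Agent.Y438.LD
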